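import Pool.Agent.H32.Mix3

set_option autoImplicit false

namespace Pool.Agent.Results.MP_e841a3_pr.Entropy

open MeasureTheory ProbabilityTheory InformationTheory

noncomputable section

/-- Law of `S_n = (X_1 + ... + X_n) / √n` for i.i.d. `X_i` with law `μ`. -/
def lawS (μ : Measure ℝ) (n : ℕ) : Measure ℝ :=
  (Measure.pi fun _ : Fin n => μ).map fun x => (∑ i, x i) / √(n : ℝ)

theorem result : ∀ C : ℝ, ∃ μ : Measure ℝ, IsProbabilityMeasure μ ∧ ∫ x, x ∂μ = 0 ∧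
    ∫ x, x ^ 2 ∂μ = 1 ∧ Integrable (fun x => x ^ 4) μ ∧ ∫ x, x ^ 4 ∂μ ≤ 1000 ∧
    klDiv μ (gaussianReal 0 1) ≠ ⊤ ∧ ∃ n : ℕ, 1 ≤ n ∧
      ENNReal.ofReal (C / n) * klDiv μ (gaussianReal 0 1) < klDiv (lawS μ n) (gaussianReal 0 1) := by
  intro C
  obtain ⟨n, hn⟩ := exists_nat_gt (max (100 * C) 1)
  have h1 : 1 ≤ n := by
    have : (1 : ℝ) < n := (le_max_right _ _).trans_lt hn
    exact_mod_cast this.le
  have h2 : 100 * C < n := (le_max_left _ _).trans_lt hn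
  obtain ⟨τ, R, ε, V, h⟩ := Pool.Agent.H32.Mix.exists_par n h1
  obtain ⟨m1, m2, m3, m4, m5⟩ := h.moments
  refine ⟨_, m1, m2, m3, m4, m5, ne_top_of_le_ne_top ENNReal.ofReal_ne_top h.kl1, n, h1, ?_⟩
  have e := Pool.Agent.H32.Mix.law_bf (R := R) h.ε0 (by linarith [h.ε1]) h.V0 n h1
  change _ < klDiv (Pool.Agent.H32.Mix.lawS _ n) _
  rw [e]
  exact Pool.Agent.H32.Mix.fin_step h (a := 1) (b := 1 / 100) (by norm_num) (by norm_num)
    (by linarith) (by simpa using h.kl1) h.kln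

end

end Pool.Agent.Results.MP_e841a3_pr.Entropy
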