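import Pool.Agent.H32.Mix3

set_option autoImplicit false

namespace Pool.Agent.Results.MP_e841a3_pr.Fisher

open MeasureTheory

noncomputable section

/-- The measure with density `f` with respect to Lebesgue measure. -/
def dens (f : ℝ → ℝ) : Measure ℝ := volume.withDensity fun x => ENNReal.ofReal (f x)

/-- Law of `S_n = (X_1 + ... + X_n) / √n` for i.i.d. `X_i` with law `μ`. -/
def lawS (μ : Measure ℝ) (n : ℕ) : Measure ℝ :=
  (Measure.pi fun _ : Fin n => μ).map fun x => (∑ i, x i) / √(n : ℝ)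

/-- Relative Fisher information `J(f‖φ) = ∫ f (f'/f + x)²`, with values in `[0, ∞]`. -/
def fisher (f : ℝ → ℝ) : ENNReal := ∫⁻ x, ENNReal.ofReal (f x * (deriv f x / f x + x) ^ 2)

theorem result : ∀ C : ℝ, ∃ (f g : ℝ → ℝ) (n : ℕ), ContDiff ℝ 1 f ∧ ContDiff ℝ 1 g ∧
    (∀ x, 0 < f x) ∧ (∀ x, 0 < g x) ∧ IsProbabilityMeasure (dens f) ∧ ∫ x, x ∂dens f = 0 ∧
    ∫ x, x ^ 2 ∂dens f = 1 ∧ Integrable (fun x => x ^ 4) (dens f) ∧ ∫ x, x ^ 4 ∂dens f ≤ 1000 ∧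
    fisher f ≠ ⊤ ∧ 1 ≤ n ∧ lawS (dens f) n = dens g ∧
    ENNReal.ofReal (C / n) * fisher f < fisher g := by
  intro C
  obtain ⟨n, hn⟩ := exists_nat_gt (max (64 * C) 1)
  have h1 : 1 ≤ n := by
    have : (1 : ℝ) < n := (le_max_right _ _).trans_lt hn
    exact_mod_cast this.le
  have h2 : 64 * C < n := (le_max_left _ _).trans_lt hn
  obtain ⟨τ, R, ε, V, h⟩ := Pool.Agent.H32.Mix.exists_par n h1
  obtain ⟨m1, m2, m3, m4, m5⟩ := h.moments
  refine ⟨Pool.Agent.H32.Mix.bf ε R V 1, Pool.Agent.H32.Mix.bf ε R V n, n,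
    Pool.Agent.H32.Mix.mix_smooth, Pool.Agent.H32.Mix.mix_smooth,
    Pool.Agent.H32.Mix.mix_pos (h.w0 1) h.V0 (Pool.Agent.H32.Mix.bw_sum 1),
    Pool.Agent.H32.Mix.mix_pos (h.w0 n) h.V0 (Pool.Agent.H32.Mix.bw_sum n), m1, m2, m3, m4, m5,
    ne_top_of_le_ne_top ENNReal.ofReal_ne_top h.fi1, h1,
    Pool.Agent.H32.Mix.law_bf (R := R) h.ε0 (by linarith [h.ε1]) h.V0 n h1, ?_⟩
  exact Pool.Agent.H32.Mix.fin_step h (a := 2) (b := 1 / 32) (by norm_num) (by norm_num)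
    (by linarith) (by rw [mul_one_div]; exact h.fi1) h.fin

end

end Pool.Agent.Results.MP_e841a3_pr.Fisher
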